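import Pool.Agent.Q135.KM.AutG

set_option autoImplicit false

/-!
# The relative nef cone conjecture for families of abelian varieties

Let `X → S` be a smooth projective family of abelian varieties over an arbitrary base (the moduli may
vary, there may be monodromy, and there need not be a section), or its quotient by a finite group
which acts on the fibres. On a covering `B → S` the first homology of the fibres is constant, the
torus over `b : B` is `V / Λ_b` where `Λ_b` is the image of `ℤ^n` under the real isomorphism
`per b : ℝ^n → V`, and the group acting on the pullback of the family to `B` acts on `ℤ^n` by integral
matrices, which form the set `sym`. The class of a line bundle on `X` is an alternating form on `ℤ^n`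
which is invariant under `sym` and is the class of a line bundle on every torus `V / Λ_b`.

The theorem says that the cone `A^e(X/S)` of the classes which are nef on all fibres and effective has
a rational polyhedral fundamental domain for the action of `Aut(X/S)`, spanned by classes which are
base point free on all fibres, and that its faces form finitely many orbits. The group `𝒢` may be any
group of linear automorphisms of `N^1(X/S)` which preserves the cone and a lattice commensurable with
the lattice of the classes of line bundles, and which contains, for some `N > 0`, the pullbacks by the
automorphisms of the family of tori (commuting with the symmetries) which are the identity on the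
points of order `N`. The image of `Aut(X/S)` is such a group: if the translation parts of the
symmetries have an order dividing `N` (a projective torsor under an abelian scheme is of finite order)
then these automorphisms act on `X`. If there is a section and no finite group, the image of
`Aut(X/S)` is the group `autGrp` generated by the pullbacks by all automorphisms of the family, and
the theorem holds for it without any hypothesis.

The proof compares the classes with the self-adjoint elements of the algebra `A` of all real matrices
spanned by the integral matrices which commute with all complex structures and all symmetries, with
the involution given by a polarisation. Its positivity does not depend on the point `b`: the trace of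
the left multiplications of `A` is positive on semipositive elements at each point. Hence a class
which is semipositive on one fibre is nef on all fibres. The reduction theory of the starting library
`Pool.Agent.Y167` (Voronoi's method for an order in an algebra with a positive involution) is applied
to `A`. The existence of line bundles with sections is given by theta functions.

The definitions are in `Pool.Agent.Q135.KM.FamDef`; `LineBundle` (a factor of automorphy), its
sections, and `IsChernForm` are defined in `Pool.Agent.W594.SYZ.Defs2` and
`Pool.Agent.W594.SYZ.TQDefs`; `cone` in `Pool.Agent.Y167.ConeDef`; `LinGrp`, `Preserves` and
`IsFundDomain` in `Pool.Agent.Y167.Stm`; `IsFace` in `Pool.Agent.Y167.StmFace`.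
-/

namespace Pool.Agent.Results.MP_20d318_ag.AbelianFamilies

open Pool.Agent.Q135.KM

/-- **The relative nef cone conjecture for families of abelian varieties and their quotients by finite
groups.** Let `X` be a family of complex tori of positive dimension with a polarisation, with arbitrary
symmetries, and `𝒢` a group of linear automorphisms of `N^1(X/S)` with the properties of the image of
`Aut(X/S)`. Then the cone `A^e(X/S)` of nef effective classes has a rational polyhedral fundamental
domain for the action of `𝒢`, spanned by classes which are base point free on all fibres, and its faces
form finitely many orbits. This holds in particular for the group generated by the pullbacks by all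
automorphisms of the family. Moreover all effective classes are nef. -/
theorem result {n : ℕ} (hn : 0 < n) {B V : Type*} [Nonempty B] [NormedAddCommGroup V]
    [NormedSpace ℂ V] [FiniteDimensional ℂ V] (X : Family n B V) (hX : ∃ E, X.IsPolarisation E) :
    (∀ N : ℕ, 0 < N → ∀ 𝒢 : Pool.Agent.Y167.CC.LinGrp X.N1, X.IsAutGroup N X.nefEff 𝒢 →
      X.ConeConjecture X.nefEff 𝒢) ∧ X.ConeConjecture X.nefEff X.autGrp ∧
      X.effCone ⊆ X.nefCone := by
  obtain ⟨E, hE⟩ := hX
  exact ⟨fun N hN 𝒢 h𝒢 => Family.core hn hE hN 𝒢 h𝒢,
    Family.core hn hE one_pos _ (Family.isAutGroup_autGrp hE), Family.eff_nef hE⟩

end Pool.Agent.Results.MP_20d318_ag.AbelianFamilies
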