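import Pool.Agent.Q315.CC.Eff

/-!
# The relative nef cone conjecture: contractions, finite quotients, Galois base change

Let `(X/Z, Δ)` be a klt log Calabi–Yau pair over `Z`. We show that a rational polyhedral fundamental domain
for `Aut(X/Z, Δ)` on the effective nef cone is inherited

* by contractions `X → Y → Z` such that the elements of `Aut(X/Z, Δ)` which descend to `Y` preserve `Δ_Y`,
  for example birational ones, with `Δ_Y` the image of `Δ`; so the conjecture for all pairs is equivalent
  to the conjecture for the `ℚ`-factorial terminal pairs;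
* by quotients `X / G → Z` for finite subgroups `G` of `Aut(X/Z, Δ)`, ramified or not;
* by Galois descent: let `Z' → Z` be a finite Galois cover with group `G`, and `X'` the normalization of the
  main component of `X ×_Z Z'` with its crepant boundary `Δ'`. If the conjecture holds for `(X'/Z', Δ')`,
  then it holds for `(X/Z, Δ)`.

The last two need `FinLifts` for the kernel of the action on `N^1`, which holds if the kernel is finite,
for example if the general fibre `F` satisfies `H^1(F, O_F) = 0`, and if `Z` is a point. The groups need not be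
arithmetic; the proof is based on the Siegel property of fundamental domains for arbitrary groups
(`Pool.Agent.Q315.CC.siegel`, `Pool.Agent.Q315.CC.descent`).

In the definitions of `Pool.Agent.Q315.CC.Plain`, for a pair `(X/Z, Δ)`: `ℝ ^ n` is `N^1(X/Z)`, `ℤ ^ n` are the
integral classes, `N` is the relative nef cone, `C` is the effective nef cone, `deg` is the degree on a
rational class in the interior of the cone of curves, `Γ` is `Aut(X/Z, Δ)`, acting by push-forward.
`HasDomain` is the statement of Q1 for `(X/Z, Δ)`.
-/

set_option autoImplicit false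

namespace Pool.Agent.Results.MP_20d318_ag.BaseChangeAndContractions

open Pool.Agent.Q315.CC.Pl

/-- There is a contraction from `X` to `Y`. -/
def Contr {V : Type*} (d : V → ConeSpace) (X Y : V) : Prop :=
  ∃ q : (Fin (d Y).n → ℝ) → (Fin (d X).n → ℝ), IsContraction (d X) (d Y) q

/-- `Y` is the quotient of `X` by a finite group. -/
def Quot {V : Type*} (d : V → ConeSpace) (X Y : V) : Prop :=
  ∃ (G : Subgroup (d X).Γ) (q : (Fin (d Y).n → ℝ) → (Fin (d X).n → ℝ)), IsQuotient (d X) (d Y) G q

/-- `X'` is obtained from `Y` by a finite Galois base change: there is a cone space `W` (the classes and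
cones of `X'`, with the group of those automorphisms of `X'` which induce an element of the Galois group
on the base) which contains the automorphisms of `X'` over its base, and `Y` is the quotient of `W` by a
finite group. -/
def BaseChange {V : Type*} (d : V → ConeSpace) (X' Y : V) : Prop :=
  ∃ W : ConeSpace, IsConeSpace W ∧
    (∃ r : (Fin W.n → ℝ) → (Fin (d X').n → ℝ), IsContraction (d X') W r ∧ Function.Surjective r) ∧
    ∃ (G : Subgroup W.Γ) (q : (Fin (d Y).n → ℝ) → (Fin W.n → ℝ)), IsQuotient W (d Y) G q

/-- **Contractions, finite quotients and Galois base change in the relative cone conjecture.** -/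
theorem result {V : Type*} (d : V → ConeSpace) (h : ∀ X, IsConeAction (d X)) :
    (∀ X Y, Contr d X Y → HasDomain (d X) → HasDomain (d Y)) ∧
    (∀ X Y, FinLifts (d X) → Quot d X Y → HasDomain (d X) → HasDomain (d Y)) ∧
    (∀ X' Y, BaseChange d X' Y → HasDomain (d X') → HasDomain (d Y)) ∧
    ∀ Term : V → Prop, (∀ Y, ∃ X, Term X ∧ Contr d X Y) →
      ((∀ X, HasDomain (d X)) ↔ ∀ X, Term X → HasDomain (d X)) := by
  have h1 : ∀ X Y, Contr d X Y → HasDomain (d X) → HasDomain (d Y) := by
    rintro X Y ⟨q, hq⟩ hX
    exact contraction' (h X) (h Y) hq hX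
  refine ⟨h1, ?_, ?_, fun Term ht => ⟨fun h2 X _ => h2 X, fun h2 Y => ?_⟩⟩
  · rintro X Y hL ⟨G, q, hq⟩ hX
    exact quotient' (h X) hL (h Y) hq hX
  · rintro X' Y ⟨W, hW, ⟨r, hr, -⟩, G, q, hq⟩ hX
    exact quotient' ⟨hW.cones, hW.action⟩ hW.lifts (h Y) hq
      (contraction' (h X') ⟨hW.cones, hW.action⟩ hr hX)
  · obtain ⟨X, hX, hc⟩ := ht Y
    exact h1 X Y hc (h2 X hX)

end Pool.Agent.Results.MP_20d318_ag.BaseChangeAndContractions
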